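import Mathlib
import Pool.Agent.H76.ES.Pell

/-!
# The two quadratic polynomials
-/

namespace H76EN

open Polynomial H76ES

/-- linear coefficient of the first quadratic -/
def s1 : ℤ := (pell 13).2
/-- constant coefficient of the first quadratic -/
def m1 : ℤ := (pell 13).1 - 1728
/-- linear coefficient of the second quadratic -/
def s2 : ℤ := (pell 5).2
/-- constant coefficient of the second quadratic -/
def m2 : ℤ := (pell 5).1 - 1728

theorem n1 : (m1 + 1728) ^ 2 - 1728 * s1 ^ 2 = 1 := by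
  have := pell_norm 13
  rw [m1, s1]; linear_combination this

theorem n2 : (m2 + 1728) ^ 2 - 1728 * s2 ^ 2 = 1 := by
  have := pell_norm 5
  rw [m2, s2]; linear_combination this

theorem s1_four : s1 % 4 = 3 := by decide +kernel
theorem m1_four : m1 % 4 = 1 := by decide +kernel
theorem s2_four : s2 % 4 = 3 := by decide +kernel
theorem m2_four : m2 % 4 = 1 := by decide +kernel

theorem s1_el : (s1 : ZMod 11) = 5 := by decide +kernel
theorem m1_el : (m1 : ZMod 11) = 8 := by decide +kernel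
theorem s2_el : (s2 : ZMod 11) = 0 := by decide +kernel
theorem m2_el : (m2 : ZMod 11) = 0 := by decide +kernel

theorem s1_l : (s1 : ZMod 313) = ((172 : ℤ) : ZMod 313) + ((141 : ℤ) : ZMod 313) := by
  decide +kernel
theorem m1_l : (m1 : ZMod 313) = ((172 : ℤ) : ZMod 313) * ((141 : ℤ) : ZMod 313) := by
  decide +kernel
theorem s2_l : (s2 : ZMod 313) = ((141 : ℤ) : ZMod 313) + ((141 : ℤ) : ZMod 313) := by
  decide +kernel
theorem m2_l : (m2 : ZMod 313) = ((141 : ℤ) : ZMod 313) * ((141 : ℤ) : ZMod 313) := by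
  decide +kernel

/-- the quadratic polynomial `X² - s X + m` -/
noncomputable def G (s m : ℤ) : ℤ[X] := X ^ 2 - C s * X + C m

theorem G_monic (s m : ℤ) : (G s m).Monic := by
  have : G s m = X ^ 2 + (C (-s) * X + C m) := by
    rw [G, C_neg]; ring
  rw [this]
  apply monic_X_pow_add
  exact lt_of_le_of_lt degree_linear_le (by norm_num)

theorem G_natDegree (s m : ℤ) : (G s m).natDegree = 2 := by
  have : G s m = C 1 * X ^ 2 + C (-s) * X + C m := by
    rw [G, C_neg, C_1]; ring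
  rw [this]
  exact natDegree_quadratic one_ne_zero

theorem G_eval (s m b : ℤ) : (G s m).eval b = b ^ 2 - s * b + m := by
  simp [G]

theorem G_aeval {R : Type} [CommRing R] (s m : ℤ) (b : R) :
    aeval b (G s m) = b ^ 2 - (s : R) * b + (m : R) := by
  simp [G]

/-- the polynomials `G₁ G₂^l + 4^(l+1) 11 (X² - 1728) E` -/
noncomputable def fp (l : ℕ) (E : ℤ[X]) : ℤ[X] :=
  G s1 m1 * G s2 m2 ^ l + C (4 ^ (l + 1) * 11) * (X ^ 2 - C 1728) * E

theorem fp_eval (l : ℕ) (E : ℤ[X]) (b : ℤ) : (fp l E).eval b =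
    (b ^ 2 - s1 * b + m1) * (b ^ 2 - s2 * b + m2) ^ l
      + 4 ^ (l + 1) * 11 * (b ^ 2 - 1728) * E.eval b := by
  rw [fp, eval_add, eval_mul, eval_mul, eval_mul, eval_pow, G_eval, G_eval]
  simp

theorem fp_aeval {R : Type} [CommRing R] (l : ℕ) (E : ℤ[X]) (b : R) : aeval b (fp l E) =
    (b ^ 2 - (s1 : R) * b + m1) * (b ^ 2 - (s2 : R) * b + m2) ^ l
      + 4 ^ (l + 1) * 11 * (b ^ 2 - 1728) * aeval b E := by
  rw [fp, map_add, map_mul, map_mul, map_mul, map_pow, G_aeval, G_aeval]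
  rw [aeval_C, map_sub, map_pow, aeval_X, aeval_C, eq_intCast, eq_intCast]
  push_cast
  rfl

theorem base_monic (l : ℕ) : (G s1 m1 * G s2 m2 ^ l).Monic :=
  (G_monic _ _).mul ((G_monic _ _).pow l)

theorem base_natDegree (l : ℕ) : (G s1 m1 * G s2 m2 ^ l).natDegree = 2 * l + 2 := by
  rw [(G_monic _ _).natDegree_mul ((G_monic _ _).pow l), (G_monic _ _).natDegree_pow,
    G_natDegree, G_natDegree]
  ring

theorem pert_degree (l : ℕ) (hl : 1 ≤ l) (E : ℤ[X]) (hE : E.natDegree ≤ 2 * l - 1) :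
    (C (4 ^ (l + 1) * 11) * (X ^ 2 - C 1728) * E : ℤ[X]).degree < ((2 * l + 2 : ℕ) : WithBot ℕ) := by
  have h1 : (C (4 ^ (l + 1) * 11) * (X ^ 2 - C 1728) * E : ℤ[X]).natDegree ≤ 2 * l + 1 := by
    calc (C (4 ^ (l + 1) * 11) * (X ^ 2 - C 1728) * E : ℤ[X]).natDegree
        ≤ (C (4 ^ (l + 1) * 11) * (X ^ 2 - C 1728) : ℤ[X]).natDegree + E.natDegree :=
          natDegree_mul_le
      _ ≤ 2 + (2 * l - 1) := by
          apply Nat.add_le_add _ hE
          calc (C (4 ^ (l + 1) * 11) * (X ^ 2 - C 1728) : ℤ[X]).natDegree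
              ≤ (X ^ 2 - C 1728 : ℤ[X]).natDegree := natDegree_C_mul_le _ _
            _ ≤ 2 := by
                rw [natDegree_X_pow_sub_C]
      _ = 2 * l + 1 := by omega
  calc (C (4 ^ (l + 1) * 11) * (X ^ 2 - C 1728) * E : ℤ[X]).degree
      ≤ ((2 * l + 1 : ℕ) : WithBot ℕ) := degree_le_of_natDegree_le h1
    _ < ((2 * l + 2 : ℕ) : WithBot ℕ) := by exact_mod_cast Nat.lt_succ_self _

theorem fp_monic (l : ℕ) (hl : 1 ≤ l) (E : ℤ[X]) (hE : E.natDegree ≤ 2 * l - 1) :
    (fp l E).Monic := by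
  rw [fp]
  apply (base_monic l).add_of_left
  rw [degree_eq_natDegree (base_monic l).ne_zero, base_natDegree]
  exact pert_degree l hl E hE

theorem fp_natDegree (l : ℕ) (hl : 1 ≤ l) (E : ℤ[X]) (hE : E.natDegree ≤ 2 * l - 1) :
    (fp l E).natDegree = 2 * l + 2 := by
  rw [fp, natDegree_add_eq_left_of_degree_lt, base_natDegree]
  rw [degree_eq_natDegree (base_monic l).ne_zero, base_natDegree]
  exact pert_degree l hl E hE

end H76EN
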