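import Mathlib
import Pool.Agent.H76.EN.Consts

/-!
# Arithmetic of the polynomials `fp`
-/

namespace H76EN

open Polynomial H76ES

theorem coprime_G {R : Type} [CommRing R] (s m : ℤ)
    (hN : (m + 1728) ^ 2 - 1728 * s ^ 2 = 1) (β : R) :
    IsCoprime (β ^ 2 - (s : R) * β + m) (β ^ 2 - 1728) := by
  have hN' : ((m : R) + 1728) ^ 2 - 1728 * (s : R) ^ 2 = 1 := by
    exact_mod_cast congrArg (Int.cast : ℤ → R) hN
  refine ⟨(m : R) + 1728 + s * β, (s : R) ^ 2 - ((m : R) + 1728 + s * β), ?_⟩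
  linear_combination hN'

theorem fp_unit {R : Type} [CommRing R] (l : ℕ) (E : ℤ[X]) (β : R)
    (h : aeval β (fp l E) = 0) : IsUnit (β ^ 2 - 1728) := by
  rw [fp_aeval] at h
  have h1 : IsCoprime ((β ^ 2 - (s1 : R) * β + m1) * (β ^ 2 - (s2 : R) * β + m2) ^ l)
      (β ^ 2 - 1728) :=
    (coprime_G s1 m1 n1 β).mul_left ((coprime_G s2 m2 n2 β).pow_left)
  apply h1.isUnit_of_dvd' _ (dvd_refl _)
  refine ⟨- (4 ^ (l + 1) * 11 * aeval β E), ?_⟩
  linear_combination h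

theorem fp_no_root (l : ℕ) (E : ℤ[X]) (b : ℤ) : (fp l E).eval b ≠ 0 := by
  intro h
  have h1 : aeval b (fp l E) = 0 := by
    rw [coe_aeval_eq_eval]; exact h
  have h2 := fp_unit l E b h1
  rcases Int.isUnit_iff.1 h2 with h3 | h3
  · have h4 : b ^ 2 = 1729 := by linarith
    have h5 : b < 42 := by nlinarith
    have h6 : -42 < b := by nlinarith
    interval_cases b <;> omega
  · have h4 : b ^ 2 = 1727 := by linarith
    have h5 : b < 42 := by nlinarith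
    have h6 : -42 < b := by nlinarith
    interval_cases b <;> omega

theorem map_G (p : ℕ) (s m : ℤ) : (G s m).map (Int.castRingHom (ZMod p))
    = X ^ 2 - C (s : ZMod p) * X + C (m : ZMod p) := by
  simp [G]

theorem fp_mod_l (l : ℕ) (F : ℤ[X]) :
    (fp l (C 313 * F)).map (Int.castRingHom (ZMod 313))
      = (X - C ((172 : ℤ) : ZMod 313)) * (X - C ((141 : ℤ) : ZMod 313)) ^ (2 * l + 1) := by
  have e313 : (C (313 : ℤ) : ℤ[X]).map (Int.castRingHom (ZMod 313)) = 0 := by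
    rw [map_C]
    have : Int.castRingHom (ZMod 313) 313 = 0 := by decide
    rw [this, C_0]
  rw [fp, Polynomial.map_add, Polynomial.map_mul, Polynomial.map_mul, Polynomial.map_mul,
    Polynomial.map_mul, Polynomial.map_pow, map_G, map_G, e313, zero_mul, mul_zero, add_zero,
    s1_l, m1_l, s2_l, m2_l]
  have h1 : (X ^ 2 - C (((172 : ℤ) : ZMod 313) + ((141 : ℤ) : ZMod 313)) * X
      + C (((172 : ℤ) : ZMod 313) * ((141 : ℤ) : ZMod 313)) : (ZMod 313)[X])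
      = (X - C ((172 : ℤ) : ZMod 313)) * (X - C ((141 : ℤ) : ZMod 313)) := by
    rw [C_add, C_mul]; ring
  have h2 : (X ^ 2 - C (((141 : ℤ) : ZMod 313) + ((141 : ℤ) : ZMod 313)) * X
      + C (((141 : ℤ) : ZMod 313) * ((141 : ℤ) : ZMod 313)) : (ZMod 313)[X])
      = (X - C ((141 : ℤ) : ZMod 313)) ^ 2 := by
    rw [C_add, C_mul]; ring
  rw [h1, h2, ← pow_mul]
  ring

theorem dvd_of_cast {p : ℕ} {a : ℤ} (h : (a : ZMod p) = 0) : (p : ℤ) ∣ a :=
  (ZMod.intCast_zmod_eq_zero_iff_dvd a p).1 h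

theorem cast_of_dvd {p : ℕ} {a : ℤ} (h : (p : ℤ) ∣ a) : (a : ZMod p) = 0 :=
  (ZMod.intCast_zmod_eq_zero_iff_dvd a p).2 h

theorem fp_mod_l2 (l : ℕ) (hl : 1 ≤ l) (F : ℤ[X]) (hF : ¬ ((313 : ℕ) : ℤ) ∣ F.eval 141) :
    ¬ (((313 : ℕ) : ℤ) ^ 2 ∣ (fp l (C 313 * F)).eval 141) := by
  intro h
  rw [fp_eval, eval_mul, eval_C] at h
  have d1 : ((313 : ℕ) : ℤ) ∣ (141 : ℤ) ^ 2 - s1 * 141 + m1 := by
    apply dvd_of_cast
    push_cast
    rw [s1_l, m1_l]
    decide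
  have d2 : ((313 : ℕ) : ℤ) ∣ (141 : ℤ) ^ 2 - s2 * 141 + m2 := by
    apply dvd_of_cast
    push_cast
    rw [s2_l, m2_l]
    decide
  have d3 : ((313 : ℕ) : ℤ) ^ 2 ∣ ((141 : ℤ) ^ 2 - s1 * 141 + m1)
      * ((141 : ℤ) ^ 2 - s2 * 141 + m2) ^ l := by
    rw [sq]
    exact mul_dvd_mul d1 (dvd_pow d2 (by omega))
  have d4 := (dvd_add_right d3).1 h
  have d5 : ((313 : ℕ) : ℤ) ∣ 4 ^ (l + 1) * 11 * (141 ^ 2 - 1728) * F.eval 141 := by
    have e : (4 : ℤ) ^ (l + 1) * 11 * (141 ^ 2 - 1728) * (313 * F.eval 141)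
        = ((313 : ℕ) : ℤ) * (4 ^ (l + 1) * 11 * (141 ^ 2 - 1728) * F.eval 141) := by
      push_cast; ring
    rw [e, sq] at d4
    exact Int.dvd_of_mul_dvd_mul_left (by norm_num) d4
  have hp : Prime ((313 : ℕ) : ℤ) := Nat.prime_iff_prime_int.1 (by norm_num)
  rcases hp.dvd_or_dvd d5 with d6 | d6
  · rcases hp.dvd_or_dvd d6 with d7 | d7
    · rcases hp.dvd_or_dvd d7 with d8 | d8
      · have := hp.dvd_of_dvd_pow d8
        norm_num at this
      · norm_num at d8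
    · norm_num at d7
  · exact hF d6

theorem eleven_zero : (11 : ZMod 11) = 0 := by decide

/-- roots modulo 11 -/
theorem fp_mod_eleven (l : ℕ) (E : ℤ[X]) (b : ℤ)
    (hb : ((b ^ 2 - s1 * b + m1 : ℤ) : ZMod 11) = 0)
    (hb' : ((2 * b - s1 : ℤ) : ZMod 11) ≠ 0)
    (hb2 : ((b ^ 2 - s2 * b + m2 : ℤ) : ZMod 11) ≠ 0) :
    ((11 : ℕ) : ℤ) ∣ (fp l E).eval b ∧ ¬ ((11 : ℕ) : ℤ) ∣ (fp l E).derivative.eval b := by
  have : Fact (Nat.Prime 11) := ⟨by norm_num⟩
  constructor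
  · apply dvd_of_cast
    rw [fp_eval]
    have e : ((((b ^ 2 - s1 * b + m1) * (b ^ 2 - s2 * b + m2) ^ l
        + 4 ^ (l + 1) * 11 * (b ^ 2 - 1728) * E.eval b : ℤ)) : ZMod 11)
        = ((b ^ 2 - s1 * b + m1 : ℤ) : ZMod 11) * (((b ^ 2 - s2 * b + m2 : ℤ) : ZMod 11)) ^ l
        + (11 : ZMod 11) * (4 ^ (l + 1) * ((b ^ 2 - 1728 : ℤ) : ZMod 11)
          * ((E.eval b : ℤ) : ZMod 11)) := by
      push_cast; ring
    have e11 : (11 : ZMod 11) = 0 := eleven_zero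
    rw [e, hb, e11, zero_mul, zero_mul, add_zero]
  · intro hd
    have h0 := cast_of_dvd hd
    have e : (fp l E).derivative = (G s1 m1).derivative * G s2 m2 ^ l
        + G s1 m1 * (G s2 m2 ^ l).derivative
        + C 11 * (C (4 ^ (l + 1)) * ((X ^ 2 - C 1728) * E).derivative) := by
      rw [fp, derivative_add, derivative_mul]
      have : (C (4 ^ (l + 1) * 11) * (X ^ 2 - C 1728) * E : ℤ[X])
          = C (4 ^ (l + 1) * 11) * ((X ^ 2 - C 1728) * E) := by ring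
      rw [this, derivative_C_mul, C_mul]
      ring
    rw [e, eval_add, eval_add, eval_mul, eval_mul, eval_mul, eval_pow, G_eval, G_eval,
      eval_C] at h0
    have hder : (G s1 m1).derivative.eval b = 2 * b - s1 := by
      simp [G]
    rw [hder] at h0
    push_cast at h0
    have e11 : (11 : ZMod 11) = 0 := eleven_zero
    push_cast at hb hb' hb2
    rw [e11, zero_mul, add_zero, hb, zero_mul, add_zero] at h0
    rcases mul_eq_zero.1 h0 with h1 | h1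
    · exact hb' h1
    · exact (pow_ne_zero l hb2) h1

/-- integrality of `κ` with `4 κ = β² + β + 1` -/
theorem kappa_int {R K : Type} [CommRing R] [Field K] [CharZero K] [Algebra R K] (l : ℕ)
    (E : ℤ[X]) (β : R) (hβ : aeval β (fp l E) = 0) (κ : K)
    (hκ : 4 * κ = (algebraMap R K β) ^ 2 + algebraMap R K β + 1) : IsIntegral R κ := by
  obtain ⟨u1, hu1⟩ : ∃ u, s1 = 4 * u - 1 := ⟨(s1 + 1) / 4, by have := s1_four; omega⟩
  obtain ⟨v1, hv1⟩ : ∃ v, m1 = 4 * v + 1 := ⟨(m1 - 1) / 4, by have := m1_four; omega⟩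
  obtain ⟨u2, hu2⟩ : ∃ u, s2 = 4 * u - 1 := ⟨(s2 + 1) / 4, by have := s2_four; omega⟩
  obtain ⟨v2, hv2⟩ : ∃ v, m2 = 4 * v + 1 := ⟨(m2 - 1) / 4, by have := m2_four; omega⟩
  obtain ⟨b, hb⟩ : ∃ b, b = algebraMap R K β := ⟨_, rfl⟩
  rw [← hb] at hκ
  have h1 : b ^ 2 - (s1 : K) * b + m1 = 4 * (κ - ((u1 : K) * b - v1)) := by
    rw [hu1, hv1]; push_cast; linear_combination -hκ
  have h2 : b ^ 2 - (s2 : K) * b + m2 = 4 * (κ - ((u2 : K) * b - v2)) := by
    rw [hu2, hv2]; push_cast; linear_combination -hκ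
  have h3 : aeval b (fp l E) = 0 := by
    rw [hb, aeval_algebraMap_apply, hβ, map_zero]
  rw [fp_aeval, h1, h2] at h3
  have h4 : (κ - ((u1 : K) * b - v1)) * (κ - ((u2 : K) * b - v2)) ^ l
      + 11 * (b ^ 2 - 1728) * aeval b E = 0 := by
    have h40 : (4 : K) ^ (l + 1) ≠ 0 := pow_ne_zero _ (by norm_num)
    apply mul_left_cancel₀ h40
    rw [mul_zero, ← h3, mul_pow]
    ring
  -- the monic polynomial over R
  obtain ⟨P, hP⟩ : ∃ P : R[X], P = (X - C ((u1 : R) * β - v1)) * (X - C ((u2 : R) * β - v2)) ^ l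
      + C (11 * (β ^ 2 - 1728) * aeval β E) := ⟨_, rfl⟩
  have hmon : ((X - C ((u1 : R) * β - v1)) * (X - C ((u2 : R) * β - v2)) ^ l : R[X]).Monic :=
    (monic_X_sub_C _).mul ((monic_X_sub_C _).pow l)
  refine ⟨P, ?_, ?_⟩
  · rw [hP]
    by_cases hR : Nontrivial R
    · apply hmon.add_of_left
      apply lt_of_le_of_lt degree_C_le
      rw [degree_eq_natDegree hmon.ne_zero, (monic_X_sub_C _).natDegree_mul
        ((monic_X_sub_C _).pow l), (monic_X_sub_C _).natDegree_pow, natDegree_X_sub_C,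
        natDegree_X_sub_C]
      exact_mod_cast (by omega : 0 < 1 + l * 1)
    · rw [not_nontrivial_iff_subsingleton] at hR
      exact monic_of_subsingleton _
  · rw [hP, eval₂_add, eval₂_mul, eval₂_pow, eval₂_sub, eval₂_sub, eval₂_X, eval₂_C, eval₂_C,
      eval₂_C]
    rw [← h4]
    have e1 : aeval b E = algebraMap R K (aeval β E) := by
      rw [hb, aeval_algebraMap_apply]
    rw [e1, hb]
    simp only [map_sub, map_mul, map_pow, map_intCast, map_ofNat]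

end H76EN
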