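import Mathlib
import Pool.Agent.H76.EN.Signs

/-!
# Conditions at an auxiliary prime
-/

namespace H76EN

open Polynomial H76ES

theorem coprime_K (l : ℕ) (q : ℕ) (hq : q.Prime) (hq313 : 313 < q) :
    IsCoprime ((4 : ℤ) ^ (l + 1) * 11 * 1728 * 313 * 313) ((q : ℤ) ^ 2) := by
  have hp : Prime (q : ℤ) := Nat.prime_iff_prime_int.1 hq
  have small : ∀ a : ℕ, 0 < a → a < q → IsCoprime (a : ℤ) ((q : ℤ) ^ 2) := by
    intro a ha haq
    apply IsCoprime.pow_right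
    rw [Nat.isCoprime_iff_coprime]
    exact (Nat.coprime_of_lt_prime ha.ne' haq hq).symm
  have h4 := small 4 (by norm_num) (by omega)
  have h11 := small 11 (by norm_num) (by omega)
  have h12 := small 12 (by norm_num) (by omega)
  have h313 := small 313 (by norm_num) (by omega)
  have e : (4 : ℤ) ^ (l + 1) * 11 * 1728 * 313 * 313
      = ((4 : ℕ) : ℤ) ^ (l + 1) * ((11 : ℕ) : ℤ) * (((12 : ℕ) : ℤ) ^ 3) * ((313 : ℕ) : ℤ)
        * ((313 : ℕ) : ℤ) := by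
    push_cast; norm_num
  rw [e]
  exact ((((h4.pow_left).mul_left h11).mul_left h12.pow_left).mul_left h313).mul_left h313

/-- the polynomial `F0` -/
noncomputable def Flin (t0 t1 : ℤ) : ℤ[X] := C (1 + 313 * t0) + C (313 * t1) * X

theorem Flin_natDegree (l : ℕ) (hl : 1 ≤ l) (t0 t1 : ℤ) : (Flin t0 t1).natDegree ≤ 2 * l - 1 := by
  have : (Flin t0 t1).natDegree ≤ 1 := by
    rw [Flin, add_comm]
    exact natDegree_linear_le
  omega

/-- the final polynomial -/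
noncomputable def ff (l : ℕ) (q : ℕ) (t0 t1 N : ℤ) : ℤ[X] :=
  fp l (C 313 * (Flin t0 t1 - C (313 * (q : ℤ) ^ 2 * N) * Q0 (2 * l - 1)))

theorem fp_der (l : ℕ) (E : ℤ[X]) : (fp l E).derivative.eval 0
    = (G s1 m1 * G s2 m2 ^ l).derivative.eval 0
      - 4 ^ (l + 1) * 11 * 1728 * E.derivative.eval 0 := by
  have h : (C (4 ^ (l + 1) * 11) * (X ^ 2 - C 1728) * E : ℤ[X])
      = C (4 ^ (l + 1) * 11) * ((X ^ 2 - C 1728) * E) := by ring
  have e2 : (X ^ 2 - C 1728 : ℤ[X]).derivative.eval 0 = 0 := by simp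
  have e3 : (X ^ 2 - C 1728 : ℤ[X]).eval 0 = -1728 := by simp
  have e4 : ((X ^ 2 - C 1728) * E : ℤ[X]).derivative.eval 0 = -1728 * E.derivative.eval 0 := by
    rw [derivative_mul, eval_add, eval_mul, eval_mul, e2, e3, zero_mul, zero_add]
  rw [fp, derivative_add, eval_add, h, derivative_C_mul, eval_mul, eval_C, e4]
  ring

theorem exists_t (l : ℕ) (q : ℕ) (hq : q.Prime) (hq313 : 313 < q) :
    ∃ t0 t1 : ℤ, ∀ N : ℤ, (q : ℤ) ∣ (ff l q t0 t1 N).coeff 0 ∧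
      ¬ ((q : ℤ) ^ 2 ∣ (ff l q t0 t1 N).coeff 0) ∧ (q : ℤ) ∣ (ff l q t0 t1 N).coeff 1 := by
  obtain ⟨a, b, hab⟩ := coprime_K l q hq hq313
  obtain ⟨A, hA⟩ : ∃ A : ℤ, A = m1 * m2 ^ l - 4 ^ (l + 1) * 11 * 1728 * 313 := ⟨_, rfl⟩
  obtain ⟨c1, hc1⟩ : ∃ c1 : ℤ, c1 = (G s1 m1 * G s2 m2 ^ l).derivative.eval 0 := ⟨_, rfl⟩
  refine ⟨a * (A - q), a * c1, ?_⟩
  intro N
  have h0 : (ff l q (a * (A - q)) (a * c1) N).coeff 0 = q + (q : ℤ) ^ 2 * (b * (A - q)
      + 4 ^ (l + 1) * 11 * 1728 * 313 * 313 * N * (Q0 (2 * l - 1)).eval 0) := by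
    rw [coeff_zero_eq_eval_zero, ff, fp_eval, eval_mul, eval_sub, eval_mul, eval_C, eval_C, Flin,
      eval_add, eval_C, eval_mul, eval_C, eval_X]
    linear_combination -(A - q) * hab - hA
  have h1 : (ff l q (a * (A - q)) (a * c1) N).coeff 1 = (q : ℤ) ^ 2 * (b * c1
      + 4 ^ (l + 1) * 11 * 1728 * 313 * 313 * N * (Q0 (2 * l - 1)).derivative.eval 0) := by
    have e1 : (ff l q (a * (A - q)) (a * c1) N).coeff 1
        = (ff l q (a * (A - q)) (a * c1) N).derivative.eval 0 := by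
      rw [← coeff_zero_eq_eval_zero, coeff_derivative]
      simp
    rw [e1, ff, fp_der, ← hc1]
    have e4 : (derivative (C 313 * (Flin (a * (A - q)) (a * c1)
        - C (313 * (q : ℤ) ^ 2 * N) * Q0 (2 * l - 1)))).eval 0
        = 313 * (313 * (a * c1) - 313 * (q : ℤ) ^ 2 * N * (Q0 (2 * l - 1)).derivative.eval 0) := by
      rw [derivative_C_mul, derivative_sub, derivative_C_mul, Flin, derivative_add, derivative_C,
        derivative_C_mul, derivative_X, eval_mul, eval_sub, eval_mul, eval_C, eval_C]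
      simp
    rw [e4]
    linear_combination (-c1) * hab
  refine ⟨?_, ?_, ?_⟩
  · rw [h0]
    exact Dvd.intro (1 + q * (b * (A - q)
      + 4 ^ (l + 1) * 11 * 1728 * 313 * 313 * N * (Q0 (2 * l - 1)).eval 0)) (by ring)
  · rw [h0]
    intro hd
    have h2 : (q : ℤ) ^ 2 ∣ (q : ℤ) := (dvd_add_left (Dvd.intro _ rfl)).1 hd
    have h3 : (q : ℤ) ^ 2 ≤ q := Int.le_of_dvd (by exact_mod_cast hq.pos) h2
    have h4 : (313 : ℤ) < q := by exact_mod_cast hq313
    nlinarith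
  · rw [h1, sq, mul_assoc]
    exact Dvd.intro _ rfl

end H76EN
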