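import Mathlib

/-!
# The number field of an irreducible polynomial
-/

namespace H76EN

open Polynomial NumberField

theorem exists_field (f : ℤ[X]) (hmon : f.Monic)
    (hirr : Irreducible (f.map (Int.castRingHom ℚ))) :
    ∃ (K : Type) (_ : Field K) (_ : NumberField K) (pb : PowerBasis ℚ K),
      minpoly ℚ pb.gen = f.map (Int.castRingHom ℚ) := by
  have : Fact (Irreducible (f.map (Int.castRingHom ℚ))) := ⟨hirr⟩
  have hne := hirr.ne_zero
  have hfin : FiniteDimensional ℚ (AdjoinRoot (f.map (Int.castRingHom ℚ))) :=
    (AdjoinRoot.powerBasis hne).finite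
  have hchar : CharZero (AdjoinRoot (f.map (Int.castRingHom ℚ))) :=
    charZero_of_injective_algebraMap (algebraMap ℚ _).injective
  have hnf : NumberField (AdjoinRoot (f.map (Int.castRingHom ℚ))) :=
    { to_charZero := hchar
      to_finiteDimensional := hfin }
  refine ⟨AdjoinRoot (f.map (Int.castRingHom ℚ)), inferInstance, hnf,
    AdjoinRoot.powerBasis hne, ?_⟩
  have h := AdjoinRoot.minpoly_powerBasis_gen_of_monic (hmon.map (Int.castRingHom ℚ)) hne
  exact h

end H76EN
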