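import Mathlib

/-!
# Homomorphisms from a number field to `p`-adic numbers, and of its integers to `F_p`
-/

namespace H76EN

open NumberField Polynomial

theorem aeval_int {R : Type} [CommRing R] (f : ℤ[X]) (a : ℤ) :
    aeval (a : R) f = ((f.eval a : ℤ) : R) := by
  have h := aeval_algebraMap_apply R a f
  rw [eq_intCast, eq_intCast] at h
  rw [h, coe_aeval_eq_eval]

theorem norm_one_of_not_dvd {p : ℕ} [Fact p.Prime] (k : ℤ) (h : ¬ (p : ℤ) ∣ k) :
    ‖(k : ℤ_[p])‖ = 1 := by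
  apply le_antisymm (PadicInt.norm_le_one _)
  by_contra hc
  exact h (PadicInt.norm_int_lt_one_iff_dvd k |>.1 (not_le.1 hc))

theorem padic_root (p : ℕ) [Fact p.Prime] (f : ℤ[X]) (a : ℤ) (h0 : (p : ℤ) ∣ f.eval a)
    (h1 : ¬ (p : ℤ) ∣ f.derivative.eval a) :
    ∃ z : ℤ_[p], aeval z f = 0 ∧ PadicInt.toZMod z = (a : ZMod p) := by
  have hd : ‖aeval (a : ℤ_[p]) f.derivative‖ = 1 := by
    rw [aeval_int]; exact norm_one_of_not_dvd _ h1
  have hn : ‖aeval (a : ℤ_[p]) f‖ < 1 := by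
    rw [aeval_int]; exact PadicInt.norm_int_lt_one_iff_dvd _ |>.2 h0
  obtain ⟨z, hz, hza, -, -⟩ := hensels_lemma (F := f) (a := (a : ℤ_[p]))
    (by rw [hd]; simpa using hn)
  refine ⟨z, hz, ?_⟩
  rw [hd] at hza
  have hm : z - a ∈ RingHom.ker (PadicInt.toZMod (p := p)) := by
    rw [PadicInt.ker_toZMod]
    exact PadicInt.mem_nonunits.2 hza
  rw [RingHom.mem_ker, map_sub, sub_eq_zero] at hm
  rw [hm, map_intCast]

theorem norm_le_one_of_integral (p : ℕ) [Fact p.Prime] (x : ℚ_[p]) (hx : IsIntegral ℤ x) :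
    ‖x‖ ≤ 1 := by
  have h1 : IsIntegral ℤ_[p] x := hx.tower_top
  obtain ⟨y, hy⟩ := IsIntegrallyClosed.isIntegral_iff.1 h1
  rw [← hy]
  exact y.2

/-- restriction of a homomorphism `K → ℚ_p` to integers, followed by reduction -/
theorem exists_red (p : ℕ) [Fact p.Prime] (K : Type) [Field K] (σ : K →+* ℚ_[p]) :
    ∃ φ : 𝓞 K →+* ZMod p, ∀ (b : 𝓞 K) (z : ℤ_[p]), σ (b : K) = (z : ℚ_[p]) →
      φ b = PadicInt.toZMod z := by
  have hint : ∀ b : 𝓞 K, ‖σ (b : K)‖ ≤ 1 := by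
    intro b
    apply norm_le_one_of_integral
    exact (b.isIntegral_coe).map (σ.toIntAlgHom)
  obtain ⟨ρ, hρ⟩ : ∃ ρ : 𝓞 K →+* ℤ_[p], ∀ b, ((ρ b : ℤ_[p]) : ℚ_[p]) = σ (b : K) := by
    refine ⟨{ toFun := fun b => ⟨σ (b : K), hint b⟩
              map_one' := ?_
              map_mul' := ?_
              map_zero' := ?_
              map_add' := ?_ }, fun b => rfl⟩
    · apply Subtype.ext
      simp
    · intro x y
      apply Subtype.ext
      show σ ((x * y : 𝓞 K) : K) = σ (x : K) * σ (y : K)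
      rw [← map_mul]
      rfl
    · apply Subtype.ext
      simp
    · intro x y
      apply Subtype.ext
      show σ ((x + y : 𝓞 K) : K) = σ (x : K) + σ (y : K)
      rw [← map_add]
      rfl
  refine ⟨PadicInt.toZMod.comp ρ, ?_⟩
  intro b z hz
  rw [RingHom.comp_apply]
  congr 1
  apply Subtype.ext
  have := hρ b
  rw [hz] at this
  exact this

/-- the `p`-adic embedding attached to a `p`-adic root -/
theorem exists_padic_emb (p : ℕ) [Fact p.Prime] (K : Type) [Field K] [NumberField K]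
    (pb : PowerBasis ℚ K) (f : ℤ[X]) (hf : minpoly ℚ pb.gen = f.map (Int.castRingHom ℚ))
    (z : ℤ_[p]) (hz : aeval z f = 0) :
    ∃ σ : K →ₐ[ℚ] ℚ_[p], σ pb.gen = (z : ℚ_[p]) := by
  have h0 : aeval (z : ℚ_[p]) (minpoly ℚ pb.gen) = 0 := by
    rw [hf]
    have e1 : aeval (z : ℚ_[p]) (f.map (Int.castRingHom ℚ)) = aeval (z : ℚ_[p]) f := by
      have := aeval_map_algebraMap (R := ℤ) ℚ (z : ℚ_[p]) f
      exact this
    rw [e1]
    have e2 := aeval_algebraMap_apply ℚ_[p] z f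
    rw [hz, map_zero] at e2
    exact e2
  exact ⟨pb.lift (z : ℚ_[p]) h0, pb.lift_gen _ h0⟩

/-- reduction homomorphisms at simple roots modulo `p` -/
theorem hom_of_simple_root (p : ℕ) [Fact p.Prime] (K : Type) [Field K] [NumberField K]
    (pb : PowerBasis ℚ K) (f : ℤ[X]) (hf : minpoly ℚ pb.gen = f.map (Int.castRingHom ℚ))
    (β : 𝓞 K) (hβ : (β : K) = pb.gen) (a : ℤ) (h0 : (p : ℤ) ∣ f.eval a)
    (h1 : ¬ (p : ℤ) ∣ f.derivative.eval a) :
    ∃ φ : 𝓞 K →+* ZMod p, φ β = (a : ZMod p) := by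
  obtain ⟨z, hz, hza⟩ := padic_root p f a h0 h1
  obtain ⟨σ, hσ⟩ := exists_padic_emb p K pb f hf z hz
  obtain ⟨φ, hφ⟩ := exists_red p K (σ : K →+* ℚ_[p])
  refine ⟨φ, ?_⟩
  rw [hφ β z (by rw [hβ]; exact hσ), hza]

end H76EN
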