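import Mathlib
import Pool.Agent.H76.EN.Padic

/-!
# Factorisation over `ℚ_p` into a linear and an Eisenstein factor
-/

namespace H76EN

open Polynomial

theorem eis_irred (p : ℕ) [Fact p.Prime] (h : ℤ_[p][X]) (k : ℕ) (hk : 0 < k) (hmon : h.Monic)
    (hdeg : h.natDegree = k) (c : ℤ_[p])
    (hmod : h.map (PadicInt.toZMod (p := p)) = (X - C (PadicInt.toZMod c)) ^ k)
    (h2 : ¬ ((p : ℤ_[p]) ^ 2 ∣ h.eval c)) : Irreducible h := by
  let _ : Algebra ℤ_[p] (ZMod p) := (PadicInt.toZMod (p := p)).toAlgebra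
  have halg : algebraMap ℤ_[p] (ZMod p) = PadicInt.toZMod (p := p) := rfl
  apply generalizedEisenstein (K := ZMod p) (q := X - C c) (p := k)
  · rw [Polynomial.map_sub, map_X, map_C]
    exact irreducible_X_sub_C _
  · exact monic_X_sub_C c
  · exact hmon.isPrimitive
  · omega
  · rw [hmon.leadingCoeff, map_one]; exact one_ne_zero
  · rw [halg, hmod, hmon.leadingCoeff, map_one, C_1, one_mul, Polynomial.map_sub, map_X, map_C]
  · rw [modByMonic_X_sub_C_eq_C_eval, map_C]
    intro h0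
    rw [C_eq_zero, Ideal.Quotient.eq_zero_iff_mem, halg, PadicInt.ker_toZMod,
      PadicInt.maximalIdeal_eq_span_p, Ideal.span_singleton_pow, Ideal.mem_span_singleton] at h0
    exact h2 h0

/-- the local factorisation -/
theorem local_factor (p : ℕ) [Fact p.Prime] (f : ℤ[X]) (k : ℕ) (hk : 0 < k) (hmon : f.Monic)
    (hdeg : f.natDegree = k + 1) (a c : ℤ)
    (hmod : f.map (Int.castRingHom (ZMod p)) = (X - C (a : ZMod p)) * (X - C (c : ZMod p)) ^ k)
    (hac : (a : ZMod p) ≠ (c : ZMod p)) (h2 : ¬ ((p : ℤ) ^ 2 ∣ f.eval c)) :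
    ∃ (z : ℤ_[p]) (h : ℤ_[p][X]), aeval z f = 0 ∧ h.Monic ∧ h.natDegree = k ∧ Irreducible h ∧
      f.map (Int.castRingHom ℤ_[p]) = (X - C z) * h := by
  have ev : ∀ (F : ℤ[X]) (b : ℤ), ((F.eval b : ℤ) : ZMod p)
      = (F.map (Int.castRingHom (ZMod p))).eval (b : ZMod p) := by
    intro F b
    rw [eval_intCast_map]
    simp
  have h0 : (p : ℤ) ∣ f.eval a := by
    rw [← ZMod.intCast_zmod_eq_zero_iff_dvd, ev, hmod, eval_mul, eval_sub, eval_X, eval_C, sub_self,
      zero_mul]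
  have h1 : ¬ (p : ℤ) ∣ f.derivative.eval a := by
    rw [← ZMod.intCast_zmod_eq_zero_iff_dvd, ev, ← derivative_map, hmod, derivative_mul, eval_add,
      eval_mul, eval_mul, eval_sub, eval_X, eval_C, sub_self, zero_mul, add_zero]
    rw [derivative_X_sub_C, eval_one, one_mul, eval_pow, eval_sub, eval_X, eval_C]
    exact pow_ne_zero _ (sub_ne_zero.2 hac)
  obtain ⟨z, hz, hza⟩ := padic_root p f a h0 h1
  have hroot : (f.map (Int.castRingHom ℤ_[p])).IsRoot z := by
    rw [IsRoot.def, eval_map]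
    exact hz
  obtain ⟨h, hh⟩ := dvd_iff_isRoot.2 hroot
  have hmonp : (f.map (Int.castRingHom ℤ_[p])).Monic := hmon.map _
  have hhmon : h.Monic := by
    rw [hh] at hmonp
    exact Monic.of_mul_monic_left (monic_X_sub_C z) hmonp
  have hhdeg : h.natDegree = k := by
    have e1 : (f.map (Int.castRingHom ℤ_[p])).natDegree = k + 1 := by
      rw [hmon.natDegree_map, hdeg]
    rw [hh, (monic_X_sub_C z).natDegree_mul hhmon, natDegree_X_sub_C] at e1
    omega
  have hhmod : h.map (PadicInt.toZMod (p := p)) = (X - C (PadicInt.toZMod (c : ℤ_[p]))) ^ k := by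
    have e1 := congrArg (Polynomial.map (PadicInt.toZMod (p := p))) hh
    rw [Polynomial.map_mul, Polynomial.map_sub, map_X, map_C, hza, Polynomial.map_map] at e1
    have e2 : (PadicInt.toZMod (p := p)).comp (Int.castRingHom ℤ_[p])
        = Int.castRingHom (ZMod p) := RingHom.ext_int _ _
    rw [e2, hmod] at e1
    have e3 := mul_left_cancel₀ (monic_X_sub_C (a : ZMod p)).ne_zero e1
    rw [map_intCast]
    exact e3.symm
  refine ⟨z, h, hz, hhmon, hhdeg, ?_, hh⟩
  apply eis_irred p h k hk hhmon hhdeg (c : ℤ_[p]) hhmod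
  intro hd
  apply h2
  have e1 : ((f.eval c : ℤ) : ℤ_[p]) = ((c : ℤ_[p]) - z) * h.eval (c : ℤ_[p]) := by
    have := congrArg (Polynomial.eval (c : ℤ_[p])) hh
    rw [eval_mul, eval_sub, eval_X, eval_C, eval_intCast_map] at this
    simpa using this
  have e2 : (p : ℤ_[p]) ^ 2 ∣ ((f.eval c : ℤ) : ℤ_[p]) := by
    rw [e1]; exact Dvd.dvd.mul_left hd _
  exact_mod_cast (PadicInt.pow_p_dvd_int_iff 2 (f.eval c)).1 e2

end H76EN
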