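import Mathlib
import Pool.Agent.H76.EN.Eis

/-!
# Irreducibility and absence of intermediate fields
-/

namespace H76EN

open Polynomial NumberField IntermediateField

theorem map_factor (p : ℕ) [Fact p.Prime] (f : ℤ[X]) (z : ℤ_[p]) (h : ℤ_[p][X])
    (hh : f.map (Int.castRingHom ℤ_[p]) = (X - C z) * h) :
    f.map (Int.castRingHom ℚ_[p]) = (X - C (z : ℚ_[p])) * h.map (algebraMap ℤ_[p] ℚ_[p]) := by
  have := congrArg (Polynomial.map (algebraMap ℤ_[p] ℚ_[p])) hh
  rw [Polynomial.map_mul, Polynomial.map_sub, map_X, map_C, Polynomial.map_map] at this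
  have e2 : (algebraMap ℤ_[p] ℚ_[p]).comp (Int.castRingHom ℤ_[p])
      = Int.castRingHom ℚ_[p] := RingHom.ext_int _ _
  rw [e2] at this
  exact this

theorem irred_rat (p : ℕ) [Fact p.Prime] (f : ℤ[X]) (k : ℕ) (hk : 0 < k) (hmon : f.Monic)
    (hdeg : f.natDegree = k + 1) (z : ℤ_[p]) (h : ℤ_[p][X]) (hhmon : h.Monic)
    (hhdeg : h.natDegree = k) (hirr : Irreducible h)
    (hh : f.map (Int.castRingHom ℤ_[p]) = (X - C z) * h)
    (hroot : ∀ b : ℤ, f.eval b ≠ 0) :
    Irreducible (f.map (Int.castRingHom ℚ)) := by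
  have hQ := map_factor p f z h hh
  have hirrQ : Irreducible (h.map (algebraMap ℤ_[p] ℚ_[p])) :=
    (hhmon.irreducible_iff_irreducible_map_fraction_map).1 hirr
  have hprime := hirrQ.prime
  have hdegQ : (h.map (algebraMap ℤ_[p] ℚ_[p])).natDegree = k := by
    rw [hhmon.natDegree_map, hhdeg]
  have hfdeg : (f.map (Int.castRingHom ℚ)).natDegree = k + 1 := by
    rw [hmon.natDegree_map, hdeg]
  have hf0 : f.map (Int.castRingHom ℚ) ≠ 0 := (hmon.map _).ne_zero
  -- no rational root
  have hnoroot : ∀ q : ℚ, (f.map (Int.castRingHom ℚ)).eval q ≠ 0 := by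
    intro q hq
    have hint : IsIntegral ℤ q := ⟨f, hmon, by rw [eval_map] at hq; exact hq⟩
    obtain ⟨b, hb⟩ := IsIntegrallyClosed.isIntegral_iff.1 hint
    apply hroot b
    rw [← hb, eq_intCast, eval_intCast_map] at hq
    simpa using hq
  have key : ∀ A B : ℚ[X], f.map (Int.castRingHom ℚ) = A * B →
      h.map (algebraMap ℤ_[p] ℚ_[p]) ∣ A.map (algebraMap ℚ ℚ_[p]) → IsUnit B := by
    intro A B hAB hd
    have hA0 : A ≠ 0 := by rintro rfl; rw [zero_mul] at hAB; exact hf0 hAB
    have hB0 : B ≠ 0 := by rintro rfl; rw [mul_zero] at hAB; exact hf0 hAB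
    have h1 : k ≤ A.natDegree := by
      have := natDegree_le_of_dvd hd ((Polynomial.map_ne_zero_iff
        (algebraMap ℚ ℚ_[p]).injective).2 hA0)
      rw [hdegQ, natDegree_map] at this
      exact this
    have h2 : A.natDegree + B.natDegree = k + 1 := by
      rw [← natDegree_mul hA0 hB0, ← hAB, hfdeg]
    have h3 : B.natDegree ≤ 1 := by omega
    rcases Nat.lt_or_ge B.natDegree 1 with h4 | h4
    · have h5 : B.natDegree = 0 := by omega
      rw [natDegree_eq_zero] at h5
      obtain ⟨b, hb⟩ := h5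
      rw [← hb]
      rw [isUnit_C]
      rw [isUnit_iff_ne_zero]
      rintro rfl
      rw [C_0] at hb
      exact hB0 hb.symm
    · exfalso
      have h5 : B.degree = 1 := by
        rw [degree_eq_natDegree hB0]
        have : B.natDegree = 1 := by omega
        rw [this]; rfl
      obtain ⟨q, hq⟩ := exists_root_of_degree_eq_one h5
      apply hnoroot q
      rw [hAB, eval_mul, hq, mul_zero]
  constructor
  · intro hu
    have := natDegree_eq_zero_of_isUnit hu
    omega
  · intro A B hAB
    have e : f.map (Int.castRingHom ℚ_[p]) = A.map (algebraMap ℚ ℚ_[p])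
        * B.map (algebraMap ℚ ℚ_[p]) := by
      have := congrArg (Polynomial.map (algebraMap ℚ ℚ_[p])) hAB
      rw [Polynomial.map_mul, Polynomial.map_map] at this
      have e2 : (algebraMap ℚ ℚ_[p]).comp (Int.castRingHom ℚ) = Int.castRingHom ℚ_[p] :=
        RingHom.ext_int _ _
      rw [e2] at this
      exact this
    have hd : h.map (algebraMap ℤ_[p] ℚ_[p]) ∣ A.map (algebraMap ℚ ℚ_[p])
        * B.map (algebraMap ℚ ℚ_[p]) := by
      rw [← e, hQ]; exact Dvd.intro_left _ rfl
    rcases hprime.dvd_or_dvd hd with h1 | h1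
    · right; exact key A B hAB h1
    · left; exact key B A (by rw [hAB, mul_comm]) h1

theorem no_intermediate (p : ℕ) [Fact p.Prime] (f : ℤ[X]) (k : ℕ) (hk : 0 < k) (hmon : f.Monic)
    (hdeg : f.natDegree = k + 1) (z : ℤ_[p]) (h : ℤ_[p][X]) (hz : aeval z f = 0)
    (hhmon : h.Monic)
    (hhdeg : h.natDegree = k) (hirr : Irreducible h)
    (hh : f.map (Int.castRingHom ℤ_[p]) = (X - C z) * h)
    (K : Type) [Field K] [NumberField K] (pb : PowerBasis ℚ K)
    (hf : minpoly ℚ pb.gen = f.map (Int.castRingHom ℚ)) (L : IntermediateField ℚ K) :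
    L = ⊥ ∨ L = ⊤ := by
  have hQ := map_factor p f z h hh
  have hirrQ : Irreducible (h.map (algebraMap ℤ_[p] ℚ_[p])) :=
    (hhmon.irreducible_iff_irreducible_map_fraction_map).1 hirr
  obtain ⟨σ, hσ⟩ := exists_padic_emb p K pb f hf z hz
  have hint : IsIntegral L pb.gen := Algebra.IsIntegral.isIntegral _
  -- the minimal polynomial over L
  obtain ⟨P, hP⟩ : ∃ P, P = (minpoly L pb.gen).map (algebraMap L K) := ⟨_, rfl⟩
  have hPmon : P.Monic := by rw [hP]; exact (minpoly.monic hint).map _
  have hPdeg : P.natDegree = (minpoly L pb.gen).natDegree := by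
    rw [hP, natDegree_map]
  have hPdvd : P ∣ f.map (Int.castRingHom K) := by
    have h1 := minpoly.dvd_map_of_isScalarTower ℚ L pb.gen
    rw [hf] at h1
    have h2 := Polynomial.map_dvd (algebraMap L K) h1
    rw [← hP, Polynomial.map_map, Polynomial.map_map] at h2
    have e2 : ((algebraMap L K).comp (algebraMap ℚ L)).comp (Int.castRingHom ℚ)
        = Int.castRingHom K := RingHom.ext_int _ _
    rw [e2] at h2
    exact h2
  obtain ⟨Q, hQ1⟩ := hPdvd
  have hProot : P.IsRoot pb.gen := by
    rw [IsRoot.def, hP, eval_map, ← aeval_def]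
    exact minpoly.aeval _ _
  obtain ⟨P1, hP1⟩ := dvd_iff_isRoot.2 hProot
  have hfK : (f.map (Int.castRingHom K)).Monic := hmon.map _
  have hP0 : P ≠ 0 := hPmon.ne_zero
  have hP10 : P1 ≠ 0 := by
    rintro rfl; rw [mul_zero] at hP1; exact hP0 hP1
  have hQ0 : Q ≠ 0 := by
    rintro rfl; rw [mul_zero] at hQ1; exact hfK.ne_zero hQ1
  have hdegs : P.natDegree = 1 + P1.natDegree := by
    rw [hP1, natDegree_mul (X_sub_C_ne_zero _) hP10, natDegree_X_sub_C]
  -- apply σ
  have e1 : f.map (Int.castRingHom ℚ_[p]) = (X - C (z : ℚ_[p])) *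
      (P1.map (σ : K →+* ℚ_[p]) * Q.map (σ : K →+* ℚ_[p])) := by
    have := congrArg (Polynomial.map (σ : K →+* ℚ_[p])) hQ1
    rw [hP1, Polynomial.map_mul, Polynomial.map_mul, Polynomial.map_sub, map_X, map_C,
      Polynomial.map_map] at this
    have e2 : (σ : K →+* ℚ_[p]).comp (Int.castRingHom K) = Int.castRingHom ℚ_[p] :=
      RingHom.ext_int _ _
    have e3 : (σ : K →+* ℚ_[p]) pb.gen = (z : ℚ_[p]) := hσ
    rw [e2, e3, mul_assoc] at this
    exact this
  have e4 : h.map (algebraMap ℤ_[p] ℚ_[p]) =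
      P1.map (σ : K →+* ℚ_[p]) * Q.map (σ : K →+* ℚ_[p]) := by
    rw [hQ] at e1
    exact mul_left_cancel₀ (X_sub_C_ne_zero _) e1
  rcases hirrQ.isUnit_or_isUnit e4 with hu | hu
  · -- P of degree one
    right
    have h1 := natDegree_eq_zero_of_isUnit hu
    rw [natDegree_map] at h1
    have h2 : (minpoly L pb.gen).natDegree = 1 := by rw [← hPdeg, hdegs, h1]
    have h3 : (minpoly L pb.gen).degree = 1 := by
      rw [degree_eq_natDegree (minpoly.ne_zero hint), h2]; rfl
    obtain ⟨y, hy⟩ := minpoly.mem_range_of_degree_eq_one L pb.gen h3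
    have hmem : pb.gen ∈ L := by
      rw [← hy]; exact y.2
    rw [eq_top_iff]
    intro x _
    have hx := pb.exists_eq_aeval' x
    obtain ⟨g, hg⟩ := hx
    rw [hg]
    have : aeval pb.gen g = ((aeval (⟨pb.gen, hmem⟩ : L) g : L) : K) := by
      have := aeval_algHom_apply L.val (⟨pb.gen, hmem⟩ : L) g
      exact this
    rw [this]
    exact SetLike.coe_mem _
  · left
    have h1 := natDegree_eq_zero_of_isUnit hu
    rw [natDegree_map] at h1
    have h2 : P.natDegree = k + 1 := by
      have e5 := congrArg natDegree hQ1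
      rw [hmon.natDegree_map, hdeg, natDegree_mul hP0 hQ0, h1] at e5
      omega
    have h3 : k + 1 ≤ Module.finrank L K := by
      rw [← h2, hPdeg]
      exact minpoly.natDegree_le _
    have h4 : Module.finrank ℚ K = k + 1 := by
      rw [pb.finrank, ← pb.natDegree_minpoly, hf, hmon.natDegree_map, hdeg]
    have h5 : Module.finrank ℚ L * Module.finrank L K = Module.finrank ℚ K :=
      Module.finrank_mul_finrank ℚ L K
    have h6 : 0 < Module.finrank ℚ L := Module.finrank_pos
    have h7 : Module.finrank ℚ L = 1 := by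
      rw [h4] at h5
      nlinarith
    exact IntermediateField.finrank_eq_one_iff.1 h7

end H76EN
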