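import Mathlib

/-!
# A prime dividing the discriminant
-/

namespace H76EN

open Polynomial NumberField

theorem mem_sq_of_mul_mem {R : Type} [CommRing R] (P : Ideal R) [hP : P.IsMaximal] (x y : R)
    (hxy : x * y ∈ P ^ 2) (hy : y ∉ P) : x ∈ P ^ 2 := by
  obtain ⟨z, hz⟩ := hP.exists_inv hy
  obtain ⟨w, hw, hzw⟩ := hz
  -- z * y + w = 1 with w ∈ P
  have h1 : x * w ^ 2 ∈ P ^ 2 := Ideal.mul_mem_left _ _ (Ideal.pow_mem_pow hw 2)
  have h2 : x * y * (z * (1 + w)) ∈ P ^ 2 := Ideal.mul_mem_right _ _ hxy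
  have h3 : x = x * y * (z * (1 + w)) + x * w ^ 2 := by
    have : z * y = 1 - w := by linear_combination hzw
    linear_combination (-x * (1 + w)) * this
  rw [h3]
  exact Ideal.add_mem _ h2 h1

theorem dvd_discr (K : Type) [Field K] [NumberField K]
    (pb : PowerBasis ℚ K) (f : ℤ[X]) (hf : minpoly ℚ pb.gen = f.map (Int.castRingHom ℚ))
    (β : 𝓞 K) (hβ : (β : K) = pb.gen) (q : ℕ) (hq : q.Prime) (h0 : (q : ℤ) ∣ f.coeff 0)
    (h02 : ¬ ((q : ℤ) ^ 2 ∣ f.coeff 0)) (h1 : (q : ℤ) ∣ f.coeff 1) :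
    (q : ℤ) ∣ discr K := by
  -- the norm of β
  have hnorm : (q : ℤ) ∣ Algebra.norm ℤ β := by
    have e1 : (Algebra.norm ℤ β : ℚ) = (-1) ^ pb.dim * (f.coeff 0 : ℤ) := by
      rw [Algebra.coe_norm_int, hβ, Algebra.PowerBasis.norm_gen_eq_coeff_zero_minpoly, hf,
        coeff_map]
      rfl
    have e2 : Algebra.norm ℤ β = (-1) ^ pb.dim * f.coeff 0 := by exact_mod_cast e1
    rw [e2]
    exact Dvd.dvd.mul_left h0 _
  have habs : q ∣ (Ideal.span {β}).absNorm := by
    rw [Ideal.absNorm_span_singleton]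
    exact Int.natCast_dvd.1 hnorm
  obtain ⟨P, hPmax, hPq, hPβ⟩ := Ideal.exists_isMaximal_dvd_of_dvd_absNorm' hq _ habs
  have hβP : β ∈ P := by
    have := Ideal.dvd_iff_le.1 hPβ
    exact this (Ideal.mem_span_singleton_self β)
  have hqP : (q : 𝓞 K) ∈ P := by
    have : (q : ℤ) ∈ P.under ℤ := by rw [hPq]; exact Ideal.mem_span_singleton_self _
    rw [Ideal.under_def, Ideal.mem_comap] at this
    simpa using this
  -- the relation
  have hrel : aeval β f = 0 := by
    apply RingOfIntegers.ext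
    have h1 : aeval pb.gen (f.map (Int.castRingHom ℚ)) = 0 := by
      rw [← hf]; exact minpoly.aeval _ _
    have h2 : aeval pb.gen f = 0 := by
      have := aeval_map_algebraMap (R := ℤ) ℚ pb.gen f
      rw [← this]
      exact h1
    rw [← hβ] at h2
    have h3 := aeval_algebraMap_apply K β f
    exact (h3.symm.trans h2).trans (map_zero (algebraMap (𝓞 K) K)).symm
  obtain ⟨b0, hb0⟩ := h0
  obtain ⟨b1, hb1⟩ := h1
  have hb0P : ((b0 : ℤ) : 𝓞 K) ∉ P := by
    intro hmem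
    have h2 : b0 ∈ P.under ℤ := by
      rw [Ideal.under_def, Ideal.mem_comap]
      simpa using hmem
    rw [hPq, Ideal.mem_span_singleton] at h2
    apply h02
    rw [hb0, sq]
    exact mul_dvd_mul_left _ h2
  have hq2 : (q : 𝓞 K) ∈ P ^ 2 := by
    obtain ⟨A, hA⟩ : ∃ A : ℤ[X], f = X ^ 2 * A + (C (f.coeff 1) * X + C (f.coeff 0)) := by
      refine ⟨f.divX.divX, ?_⟩
      have e1 := divX_mul_X_add f
      have e2 := divX_mul_X_add f.divX
      have e3 : f.divX.coeff 0 = f.coeff 1 := by rw [coeff_divX]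
      rw [e3] at e2
      calc f = f.divX * X + C (f.coeff 0) := e1.symm
        _ = (f.divX.divX * X + C (f.coeff 1)) * X + C (f.coeff 0) := by rw [e2]
        _ = _ := by ring
    have hrel2 : β ^ 2 * aeval β A + ((q : 𝓞 K) * ((b1 : 𝓞 K) * β + (b0 : 𝓞 K))) = 0 := by
      rw [← hrel]
      conv_rhs => rw [hA]
      rw [hb0, hb1]
      simp only [map_add, map_mul, map_pow, aeval_X, aeval_C]
      simp only [eq_intCast]
      push_cast
      ring
    have h4 : (q : 𝓞 K) * ((b1 : 𝓞 K) * β + (b0 : 𝓞 K)) ∈ P ^ 2 := by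
      have : (q : 𝓞 K) * ((b1 : 𝓞 K) * β + (b0 : 𝓞 K)) = - (β ^ 2 * aeval β A) := by
        linear_combination hrel2
      rw [this]
      exact neg_mem (Ideal.mul_mem_right _ _ (Ideal.pow_mem_pow hβP 2))
    apply mem_sq_of_mul_mem P _ _ h4
    intro h5
    apply hb0P
    have := Ideal.sub_mem _ h5 (Ideal.mul_mem_left P (b1 : 𝓞 K) hβP)
    simpa using this
  -- ramification and the discriminant
  have hmap : P ^ 2 ∣ (Ideal.span {(q : ℤ)}).map (algebraMap ℤ (𝓞 K)) := by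
    rw [Ideal.dvd_iff_le, Ideal.map_span, Ideal.span_le, Set.image_singleton,
      Set.singleton_subset_iff]
    simpa using hq2
  have hqprime : Prime (q : ℤ) := Nat.prime_iff_prime_int.1 hq
  have hmax : (Ideal.span {(q : ℤ)}).IsMaximal :=
    ((Ideal.span_singleton_prime hqprime.ne_zero).mpr hqprime).isMaximal
      (by simpa using hq.ne_zero)
  have hdiff := pow_sub_one_dvd_differentIdeal (A := ℤ) (B := 𝓞 K) (p := Ideal.span {(q : ℤ)}) P 2
    (by simpa using hq.ne_zero) hmap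
  have h5 : P ∣ differentIdeal ℤ (𝓞 K) := by simpa using hdiff
  have h6 := Ideal.absNorm_dvd_absNorm_of_le (Ideal.dvd_iff_le.mp h5)
  rw [absNorm_differentIdeal K (𝓞 K)] at h6
  have : P.LiesOver (Ideal.span {(q : ℤ)}) := ⟨hPq.symm⟩
  rw [← Ideal.natAbs_pow_inertiaDeg (q : ℤ), ← Int.natAbs_pow, Int.natAbs_dvd_natAbs] at h6
  exact (dvd_pow_self _ (Ideal.inertiaDeg_pos ..).ne').trans h6

end H76EN
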