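import Mathlib

/-!
# Polynomials with alternating signs at `n + 1` points have only real roots
-/

namespace H76EN

open Polynomial

theorem roots_of_alternating (n : ℕ) (G : ℝ[X]) (t : ℕ → ℝ)
    (ht : ∀ i, i < n → t i < t (i + 1))
    (hs : ∀ j, j ≤ n → 0 < (-1 : ℝ) ^ (n - j) * G.eval (t j)) :
    ∃ r : Fin n → ℝ, Function.Injective r ∧ ∀ i, G.eval (r i) = 0 := by
  have hex : ∀ i : Fin n, ∃ x : ℝ, t i < x ∧ x < t (i + 1) ∧ G.eval x = 0 := by
    intro i
    have hi := i.2
    have h1 := hs i (by omega)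
    have h2 := hs (i + 1) (by omega)
    have e : (-1 : ℝ) ^ (n - i) = -(-1 : ℝ) ^ (n - (i + 1)) := by
      have : n - (i : ℕ) = (n - (i + 1)) + 1 := by omega
      rw [this, pow_succ]; ring
    rw [e] at h1
    have hcont : ContinuousOn (fun x : ℝ => (-1 : ℝ) ^ (n - ((i : ℕ) + 1)) * G.eval x)
        (Set.Icc (t i) (t (i + 1))) := by
      apply Continuous.continuousOn
      exact continuous_const.mul G.continuous
    have hiv := intermediate_value_Ioo (ht i hi).le hcont
    have hmem : (0 : ℝ) ∈ Set.Ioo ((-1 : ℝ) ^ (n - ((i : ℕ) + 1)) * G.eval (t i))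
        ((-1 : ℝ) ^ (n - ((i : ℕ) + 1)) * G.eval (t (i + 1))) := by
      constructor
      · linarith
      · exact h2
    obtain ⟨x, hx, hx0⟩ := hiv hmem
    refine ⟨x, hx.1, hx.2, ?_⟩
    rcases mul_eq_zero.1 hx0 with h | h
    · exfalso
      exact (pow_ne_zero _ (by norm_num)) h
    · exact h
  choose r hr1 hr2 hr3 using hex
  have hmono : ∀ j, j ≤ n → ∀ i, i ≤ j → t i ≤ t j := by
    intro j
    induction j with
    | zero => intro _ i hi; rw [Nat.le_zero.1 hi]
    | succ j ih =>
      intro hj i hi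
      rcases Nat.lt_or_ge i (j + 1) with h | h
      · exact le_trans (ih (by omega) i (by omega)) (ht j (by omega)).le
      · rw [le_antisymm hi h]
  have hlt : ∀ i j : Fin n, i < j → r i < r j := by
    intro i j hij
    have h1 : (i : ℕ) + 1 ≤ j := hij
    calc r i < t (i + 1) := hr2 i
      _ ≤ t j := hmono j j.2.le _ h1
      _ < r j := hr1 j
  refine ⟨r, ?_, hr3⟩
  intro i j hij
  rcases lt_trichotomy i j with h | h | h
  · exact absurd hij (hlt i j h).ne
  · exact h
  · exact absurd hij (hlt j i h).ne'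

theorem complex_root_real (n : ℕ) (G : ℝ[X]) (hdeg : G.natDegree = n) (hG : G ≠ 0)
    (r : Fin n → ℝ) (hinj : Function.Injective r) (hr : ∀ i, G.eval (r i) = 0)
    (z : ℂ) (hz : aeval z G = 0) : ∃ i, z = (r i : ℂ) := by
  classical
  by_contra hcon
  push Not at hcon
  have hG' : G.map (algebraMap ℝ ℂ) ≠ 0 := by
    rw [Ne, Polynomial.map_eq_zero]; exact hG
  obtain ⟨S, hS⟩ : ∃ S : Finset ℂ, S = insert z (Finset.univ.image (fun i => (r i : ℂ))) :=
    ⟨_, rfl⟩
  have hcard : S.card = n + 1 := by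
    rw [hS, Finset.card_insert_of_notMem, Finset.card_image_of_injective, Finset.card_univ,
      Fintype.card_fin]
    · intro i j hij
      exact hinj (Complex.ofReal_injective hij)
    · intro h
      obtain ⟨i, -, hi⟩ := Finset.mem_image.1 h
      exact hcon i hi.symm
  have hsub : S.val ⊆ (G.map (algebraMap ℝ ℂ)).roots := by
    intro x hx
    have hx' : x ∈ S := hx
    rw [mem_roots hG', IsRoot.def, eval_map_algebraMap]
    rw [hS, Finset.mem_insert] at hx'
    rcases hx' with h | h
    · rw [h]; exact hz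
    · obtain ⟨i, -, hi⟩ := Finset.mem_image.1 h
      rw [← hi]
      have := aeval_algebraMap_apply ℂ (r i) G
      rw [coe_aeval_eq_eval, hr i, map_zero] at this
      exact this
  have := card_le_degree_of_subset_roots hsub
  rw [hcard, natDegree_map, hdeg] at this
  omega

/-- a number field generated by a root of an integral polynomial with only real roots is totally
real -/
theorem totallyReal_of (K : Type) [Field K] [NumberField K] (pb : PowerBasis ℚ K) (f : ℤ[X])
    (hf : minpoly ℚ pb.gen = f.map (Int.castRingHom ℚ))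
    (hreal : ∀ z : ℂ, aeval z f = 0 → ∃ x : ℝ, z = (x : ℂ)) :
    NumberField.IsTotallyReal K := by
  constructor
  intro v
  rw [← NumberField.InfinitePlace.mk_embedding v, NumberField.InfinitePlace.isReal_mk_iff]
  obtain ⟨φ, hφ⟩ : ∃ φ : K →+* ℂ, φ = v.embedding := ⟨_, rfl⟩
  rw [← hφ]
  have h0 : aeval (φ pb.gen) f = 0 := by
    have h1 : aeval pb.gen (f.map (Int.castRingHom ℚ)) = 0 := by
      rw [← hf]; exact minpoly.aeval _ _
    have h2 : aeval pb.gen f = 0 := by
      have := aeval_map_algebraMap (R := ℤ) ℚ pb.gen f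
      rw [← this]
      exact h1
    have h3 := aeval_algHom_apply φ.toIntAlgHom pb.gen f
    rw [h2, map_zero] at h3
    exact h3
  obtain ⟨x, hx⟩ := hreal _ h0
  rw [NumberField.ComplexEmbedding.isReal_iff]
  have hA : ((NumberField.ComplexEmbedding.conjugate φ).toRatAlgHom : K →ₐ[ℚ] ℂ)
      = φ.toRatAlgHom := by
    apply pb.algHom_ext
    show (starRingEnd ℂ) (φ pb.gen) = φ pb.gen
    rw [hx, Complex.conj_ofReal]
  ext y
  exact congrArg (fun g : K →ₐ[ℚ] ℂ => g y) hA

end H76EN
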