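import Mathlib
import Pool.Agent.H76.ES.Curve
import Pool.Agent.H76.EN.Coef
import Pool.Agent.H76.EN.Arith
import Pool.Agent.H76.EN.Real
import Pool.Agent.H76.EN.Prim
import Pool.Agent.H76.EN.Ram
import Pool.Agent.H76.EN.Fld

/-!
# The curves over the fields of degree `2 l + 2`
-/

namespace H76EN

open Polynomial NumberField H76ES

theorem r7a : ((7 ^ 2 - s1 * 7 + m1 : ℤ) : ZMod 11) = 0 := by
  push_cast; rw [s1_el, m1_el]; decide
theorem r7b : ((2 * 7 - s1 : ℤ) : ZMod 11) ≠ 0 := by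
  push_cast; rw [s1_el]; decide
theorem r7c : ((7 ^ 2 - s2 * 7 + m2 : ℤ) : ZMod 11) ≠ 0 := by
  push_cast; rw [s2_el, m2_el]; decide
theorem r9a : ((9 ^ 2 - s1 * 9 + m1 : ℤ) : ZMod 11) = 0 := by
  push_cast; rw [s1_el, m1_el]; decide
theorem r9b : ((2 * 9 - s1 : ℤ) : ZMod 11) ≠ 0 := by
  push_cast; rw [s1_el]; decide
theorem r9c : ((9 ^ 2 - s2 * 9 + m2 : ℤ) : ZMod 11) ≠ 0 := by
  push_cast; rw [s2_el, m2_el]; decide
theorem ne_l : ((172 : ℤ) : ZMod 313) ≠ ((141 : ℤ) : ZMod 313) := by decide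

theorem curve_of_root (l : ℕ) (E : ℤ[X]) (K : Type) [Field K] [NumberField K]
    (pb : PowerBasis ℚ K)
    (hf : minpoly ℚ pb.gen = (fp l E).map (Int.castRingHom ℚ))
    (β : 𝓞 K) (hβ : (β : K) = pb.gen) (hrel : aeval β (fp l E) = 0) :
    ∃ W : WeierstrassCurve (𝓞 K), IsUnit W.Δ ∧
      ∃ φ ψ : 𝓞 K →+* ZMod 11, tr W φ = 2 ∧ tr W ψ = 4 := by
  have : Fact (Nat.Prime 11) := ⟨by norm_num⟩
  -- κ
  have h4 : (4 : K) ≠ 0 := by norm_num
  obtain ⟨k, hk⟩ : ∃ k : K, 4 * k = (algebraMap (𝓞 K) K β) ^ 2 + algebraMap (𝓞 K) K β + 1 :=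
    ⟨((algebraMap (𝓞 K) K β) ^ 2 + algebraMap (𝓞 K) K β + 1) / 4, by field_simp⟩
  have hkint : IsIntegral (𝓞 K) k := kappa_int l E β hrel k hk
  have hkint' : IsIntegral ℤ k := isIntegral_trans k hkint
  obtain ⟨κ, hκ⟩ : ∃ κ : 𝓞 K, (κ : K) = k := ⟨⟨k, hkint'⟩, rfl⟩
  have hκ4 : 4 * κ = β ^ 2 + β + 1 := by
    apply RingOfIntegers.ext
    have e : (4 : K) * (κ : K) = (β : K) ^ 2 + (β : K) + 1 := by
      rw [hκ]; exact hk
    push_cast
    exact e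
  have hunit : IsUnit (crv β κ).Δ := by
    rw [crv_disc β κ hκ4]
    exact ((fp_unit l E β hrel).pow 2).neg
  obtain ⟨a7, b7⟩ := fp_mod_eleven l E 7 r7a r7b r7c
  obtain ⟨a9, b9⟩ := fp_mod_eleven l E 9 r9a r9b r9c
  obtain ⟨φ, hφ⟩ := hom_of_simple_root 11 K pb (fp l E) hf β hβ 7 a7 b7
  obtain ⟨ψ, hψ⟩ := hom_of_simple_root 11 K pb (fp l E) hf β hβ 9 a9 b9
  exact ⟨crv β κ, hunit, φ, ψ, tr7 β κ hκ4 φ (by rw [hφ]; rfl),
    tr9 β κ hκ4 ψ (by rw [hψ]; rfl)⟩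

theorem main (l : ℕ) (hl : 1 ≤ l) (B : ℕ) :
    ∃ (K : Type) (_ : Field K) (_ : NumberField K),
      Module.finrank ℚ K = 2 * l + 2 ∧ IsTotallyReal K ∧
      (∀ L : IntermediateField ℚ K, L = ⊥ ∨ L = ⊤) ∧ (B : ℤ) < |discr K| ∧
      ∃ W : WeierstrassCurve (𝓞 K), IsUnit W.Δ ∧
        ∃ φ ψ : 𝓞 K →+* ZMod 11, tr W φ = 2 ∧ tr W ψ = 4 := by
  have : Fact (Nat.Prime 313) := ⟨by norm_num⟩
  obtain ⟨q, hqB, hq⟩ := Nat.exists_infinite_primes (B + 314)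
  have hq313 : 313 < q := by omega
  obtain ⟨t0, t1, ht⟩ := exists_t l q hq hq313
  obtain ⟨N, t, htmono, hts⟩ := exists_real l hl (Flin t0 t1) (Flin_natDegree l hl t0 t1)
    (313 * (q : ℤ) ^ 2) (by have := hq.pos; positivity)
  obtain ⟨hq0, hq02, hq1⟩ := ht N
  obtain ⟨E, hE⟩ : ∃ E, E = (C 313 * (Flin t0 t1 - C (313 * (q : ℤ) ^ 2 * N)
    * Q0 (2 * l - 1)) : ℤ[X]) := ⟨_, rfl⟩
  have hff : ff l q t0 t1 N = fp l E := by rw [ff, hE]
  rw [hff] at hq0 hq02 hq1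
  have hdegE : E.natDegree ≤ 2 * l - 1 := by
    rw [hE]; exact natDegree_E l hl _ (Flin_natDegree l hl t0 t1) _
  rw [← hE] at hts
  have hmon := fp_monic l hl E hdegE
  have hdeg := fp_natDegree l hl E hdegE
  -- the local factorisation at 313
  have hmod : (fp l E).map (Int.castRingHom (ZMod 313))
      = (X - C ((172 : ℤ) : ZMod 313)) * (X - C ((141 : ℤ) : ZMod 313)) ^ (2 * l + 1) := by
    rw [hE]; exact fp_mod_l l _
  have hne : ((172 : ℤ) : ZMod 313) ≠ ((141 : ℤ) : ZMod 313) := ne_l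
  have hF : ¬ ((313 : ℕ) : ℤ) ∣ (Flin t0 t1 - C (313 * (q : ℤ) ^ 2 * N)
      * Q0 (2 * l - 1)).eval 141 := by
    intro hd
    have e : (Flin t0 t1 - C (313 * (q : ℤ) ^ 2 * N) * Q0 (2 * l - 1)).eval 141
        = 1 + ((313 : ℕ) : ℤ) * (t0 + t1 * 141 - (q : ℤ) ^ 2 * N * (Q0 (2 * l - 1)).eval 141) := by
      rw [eval_sub, eval_mul, eval_C, Flin, eval_add, eval_C, eval_mul, eval_C, eval_X]
      push_cast; ring
    rw [e] at hd
    have := (dvd_add_left (Dvd.intro _ rfl)).1 hd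
    norm_num at this
  have h2 : ¬ (((313 : ℕ) : ℤ) ^ 2 ∣ (fp l E).eval 141) := by
    rw [hE]; exact fp_mod_l2 l hl _ hF
  obtain ⟨z, h, hz, hhmon, hhdeg, hhirr, hh⟩ := local_factor 313 (fp l E) (2 * l + 1) (by omega)
    hmon hdeg 172 141 hmod hne h2
  have hirr := irred_rat 313 (fp l E) (2 * l + 1) (by omega) hmon hdeg z h hhmon hhdeg hhirr hh
    (fp_no_root l E)
  obtain ⟨K, hK1, hK2, pb, hf⟩ := exists_field (fp l E) hmon hirr
  refine ⟨K, hK1, hK2, ?_, ?_, ?_, ?_, ?_⟩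
  · rw [pb.finrank, ← pb.natDegree_minpoly, hf, hmon.natDegree_map, hdeg]
  · -- totally real
    apply totallyReal_of K pb (fp l E) hf
    intro w hw
    obtain ⟨r, hrinj, hr⟩ := roots_of_alternating (2 * l + 2) ((fp l E).map (algebraMap ℤ ℝ)) t
      htmono hts
    have hmonR : ((fp l E).map (algebraMap ℤ ℝ)).Monic := hmon.map _
    have hw' : aeval w ((fp l E).map (algebraMap ℤ ℝ)) = 0 := by
      rw [aeval_map_algebraMap]; exact hw
    obtain ⟨i, hi⟩ := complex_root_real (2 * l + 2) _ (by rw [hmon.natDegree_map, hdeg])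
      hmonR.ne_zero r hrinj hr w hw'
    exact ⟨r i, hi⟩
  · intro L
    exact no_intermediate 313 (fp l E) (2 * l + 1) (by omega) hmon hdeg z h hz hhmon hhdeg hhirr
      hh K pb hf L
  all_goals
    have hroot : aeval pb.gen (fp l E) = 0 := by
      have h1 : aeval pb.gen ((fp l E).map (Int.castRingHom ℚ)) = 0 := by
        rw [← hf]; exact minpoly.aeval _ _
      have := aeval_map_algebraMap (R := ℤ) ℚ pb.gen (fp l E)
      rw [← this]
      exact h1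
    have hint : IsIntegral ℤ pb.gen := ⟨fp l E, hmon, hroot⟩
    obtain ⟨β, hβ⟩ : ∃ β : 𝓞 K, (β : K) = pb.gen := ⟨⟨pb.gen, hint⟩, rfl⟩
  · have hd := dvd_discr K pb (fp l E) hf β hβ q hq hq0 hq02 hq1
    have h0 : discr K ≠ 0 := discr_ne_zero K
    have h1 : (q : ℤ) ≤ |discr K| := by
      apply Int.le_of_dvd (abs_pos.2 h0)
      exact (dvd_abs _ _).2 hd
    have h3 : ((B : ℤ) + 314) ≤ q := by exact_mod_cast hqB
    linarith
  · apply curve_of_root l E K pb hf β hβ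
    apply RingOfIntegers.ext
    have h3 := aeval_algebraMap_apply K β (fp l E)
    have h4 : aeval (algebraMap (𝓞 K) K β) (fp l E) = 0 := by
      have : algebraMap (𝓞 K) K β = pb.gen := hβ
      rw [this]; exact hroot
    exact (h3.symm.trans h4).trans (map_zero (algebraMap (𝓞 K) K)).symm

end H76EN
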